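import Pool.Agent.Y262.EX.Stm

/-!
# Project EX: Moebius transformations, the action on the strip, freeness, the reflection
-/

set_option autoImplicit false

open Set Filter Topology MeasureTheory
open scoped ContDiff ComplexConjugate Real

noncomputable section

namespace Pool.Agent.Y117.EX

open Pool.Agent.Y262.EG Pool.Agent.Y262.EX

lemma s3 : Real.sqrt 3 * Real.sqrt 3 = 3 := Real.mul_self_sqrt (by norm_num)

lemma det1 (γ : Gq) : m11 γ * m22 γ - m12 γ * m21 γ = 1 := by
  have hn : (γ.a : ℝ) ^ 2 - 12 * (γ.b : ℝ) ^ 2 + 4 * (γ.c : ℝ) ^ 2 - 12 * (γ.d : ℝ) ^ 2 = 1 := by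
    exact_mod_cast γ.nrm
  unfold m11 m22 m12 m21
  linear_combination hn - 4 * ((γ.b : ℝ) ^ 2 + (γ.d : ℝ) ^ 2) * s3

lemma den_ne (γ : Gq) (w : ℂ) (hw : 0 < w.im) : (m21 γ : ℂ) * w + m22 γ ≠ 0 := by
  intro h
  have him := congrArg Complex.im h
  have hre := congrArg Complex.re h
  simp at him hre
  have h1 : m21 γ = 0 := by
    rcases him with h1 | h1
    · exact h1
    · exact absurd h1 hw.ne'
  rw [h1] at hre
  have h2 : m22 γ = 0 := by simpa using hre
  have := det1 γ
  rw [h1, h2] at this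
  norm_num at this

lemma mul_m11 (x y : Gq) : m11 (x * y) = m11 x * m11 y + m12 x * m21 y := by
  unfold m11 m12 m21
  simp only [mul_a, mul_b]
  push_cast
  linear_combination (-4 * (x.b : ℝ) * y.b - 4 * (x.d : ℝ) * y.d) * s3

lemma mul_m12 (x y : Gq) : m12 (x * y) = m11 x * m12 y + m12 x * m22 y := by
  unfold m11 m12 m22
  simp only [mul_c, mul_d]
  push_cast
  linear_combination (-4 * (x.b : ℝ) * y.d + 4 * (x.d : ℝ) * y.b) * s3

lemma mul_m21 (x y : Gq) : m21 (x * y) = m21 x * m11 y + m22 x * m21 y := by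
  unfold m11 m21 m22
  simp only [mul_c, mul_d]
  push_cast
  linear_combination (-4 * (x.d : ℝ) * y.b + 4 * (x.b : ℝ) * y.d) * s3

lemma mul_m22 (x y : Gq) : m22 (x * y) = m21 x * m12 y + m22 x * m22 y := by
  unfold m12 m21 m22
  simp only [mul_a, mul_b]
  push_cast
  linear_combination (-4 * (x.b : ℝ) * y.b - 4 * (x.d : ℝ) * y.d) * s3

theorem mobT : StMob := by
  refine ⟨fun γ w hw => ?_, fun w => ?_, det1⟩
  · have hd := den_ne γ w hw
    have him : (mob γ w).im = w.im / Complex.normSq ((m21 γ : ℂ) * w + m22 γ) := by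
      unfold mob
      rw [Complex.div_im]
      have h1 := det1 γ
      have h2 : Complex.normSq ((m21 γ : ℂ) * w + m22 γ) ≠ 0 := by
        rwa [Ne, Complex.normSq_eq_zero]
      simp only [Complex.add_im, Complex.mul_im, Complex.ofReal_re, Complex.ofReal_im, zero_mul,
        add_zero, Complex.add_re, Complex.mul_re, sub_zero]
      rw [← sub_div]
      congr 1
      linear_combination w.im * h1
    have hpos : 0 < (mob γ w).im := by
      rw [him]
      exact div_pos hw (Complex.normSq_pos.mpr hd)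
    refine ⟨hd, him, hpos, ?_, fun γ' => ?_⟩
    · unfold mob
      have h1 : HasDerivAt (fun w : ℂ => (m11 γ : ℂ) * w + m12 γ) (m11 γ : ℂ) w := by
        simpa using ((hasDerivAt_id w).const_mul (m11 γ : ℂ)).add_const (m12 γ : ℂ)
      have h2 : HasDerivAt (fun w : ℂ => (m21 γ : ℂ) * w + m22 γ) (m21 γ : ℂ) w := by
        simpa using ((hasDerivAt_id w).const_mul (m21 γ : ℂ)).add_const (m22 γ : ℂ)
      have h3 := h1.div h2 hd
      have h4 : ((m11 γ : ℂ) * ((m21 γ : ℂ) * w + m22 γ) - ((m11 γ : ℂ) * w + m12 γ) * (m21 γ : ℂ)) =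
          1 := by
        have h5 : ((m11 γ * m22 γ - m12 γ * m21 γ : ℝ) : ℂ) = 1 := by rw [det1]; simp
        push_cast at h5
        linear_combination h5
      rw [h4] at h3
      exact h3
    · have hd' := den_ne γ' (mob γ w) hpos
      have h1 : mob γ' (mob γ w) = ((m11 γ' : ℂ) * ((m11 γ : ℂ) * w + m12 γ) +
          (m12 γ' : ℂ) * ((m21 γ : ℂ) * w + m22 γ)) /
          ((m21 γ' : ℂ) * ((m11 γ : ℂ) * w + m12 γ) + (m22 γ' : ℂ) * ((m21 γ : ℂ) * w + m22 γ)) := by
        have h2 : mob γ w * ((m21 γ : ℂ) * w + m22 γ) = (m11 γ : ℂ) * w + m12 γ := by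
          unfold mob
          rw [div_mul_cancel₀ _ hd]
        have h3 : (m11 γ' : ℂ) * ((m11 γ : ℂ) * w + m12 γ) +
          (m12 γ' : ℂ) * ((m21 γ : ℂ) * w + m22 γ) =
          ((m11 γ' : ℂ) * mob γ w + m12 γ') * ((m21 γ : ℂ) * w + m22 γ) := by
          rw [← h2]; ring
        have h4 : (m21 γ' : ℂ) * ((m11 γ : ℂ) * w + m12 γ) +
          (m22 γ' : ℂ) * ((m21 γ : ℂ) * w + m22 γ) =
          ((m21 γ' : ℂ) * mob γ w + m22 γ') * ((m21 γ : ℂ) * w + m22 γ) := by
          rw [← h2]; ring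
        rw [h3, h4, mul_div_mul_right _ _ hd]
        rfl
      rw [h1]
      unfold mob
      rw [mul_m11, mul_m12, mul_m21, mul_m22]
      push_cast
      congr 1 <;> ring
  · unfold mob m11 m12 m21 m22
    simp

lemma F0_eq (hW : StW) (z : ℂ) (hz : z ∈ Om) :
    F0 z.re = -Real.log (W z).im + Real.log ‖W z‖ := by
  obtain ⟨-, -, h3, -, h5, -, -, -⟩ := hW
  obtain ⟨hre, him, -⟩ := h5 z
  have hn : ‖W z‖ = Real.exp (lam * z.im) := by
    refine (sq_eq_sq₀ (norm_nonneg _) (Real.exp_pos _).le).mp ?_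
    rw [Complex.sq_norm, Complex.normSq_apply, hre, him]
    linear_combination Real.exp (lam * z.im) ^ 2 * Real.sin_sq_add_cos_sq (lam * (z.re - L0 / 2))
  have hpos := (h3 z hz).1
  have hc : 0 < Real.cos (lam * (z.re - L0 / 2)) := by
    rw [him] at hpos
    exact (mul_pos_iff_of_pos_left (Real.exp_pos _)).mp hpos
  unfold F0
  rw [hn, him, Real.log_mul (Real.exp_pos _).ne' hc.ne', Real.log_exp]
  ring

theorem acT : StMob → StW → StAc := by
  intro hM hW
  have hW' := hW
  obtain ⟨hL, hlam, h3, h4, h5, h6, -, -⟩ := hW'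
  refine ⟨fun γ z hz => ?_, fun z hz => ?_⟩
  · obtain ⟨hwim, -⟩ := h3 z hz
    obtain ⟨hd, him, hpos, hder, hcomp⟩ := hM.1 γ (W z) hwim
    obtain ⟨hin, hWW⟩ := h4 (mob γ (W z)) hpos
    have hin' : ac γ z ∈ Om := hin
    have hWW' : W (ac γ z) = mob γ (W z) := hWW
    have hw0 : W z ≠ 0 := by
      intro h0
      rw [h0] at hwim
      simp at hwim
    have hw'0 : mob γ (W z) ≠ 0 := by
      intro h0
      rw [h0] at hpos
      simp at hpos
    have hlamC : (lam : ℂ) ≠ 0 := by exact_mod_cast hlam.ne'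
    have hD : HasDerivAt (ac γ) (W z / (mob γ (W z) * ((m21 γ : ℂ) * W z + m22 γ) ^ 2)) z := by
      have h7 := h6 (mob γ (W z)) hpos
      have h8 := (h5 z).2.2.2.2
      have h9 : HasDerivAt (fun z => mob γ (W z))
          (1 / ((m21 γ : ℂ) * W z + m22 γ) ^ 2 * (-(Complex.I * lam) * W z)) z :=
        HasDerivAt.comp z hder h8
      have h10 := HasDerivAt.comp z h7 h9
      have h11 : Complex.I / ((lam : ℂ) * mob γ (W z)) *
          (1 / ((m21 γ : ℂ) * W z + m22 γ) ^ 2 * (-(Complex.I * lam) * W z)) =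
          W z / (mob γ (W z) * ((m21 γ : ℂ) * W z + m22 γ) ^ 2) := by
        field_simp
        linear_combination (-1 : ℂ) * Complex.I_sq
      rw [h11] at h10
      exact h10
    refine ⟨hin', hWW', fun γ' => ?_, hD.differentiableAt, ?_, ?_⟩
    · unfold ac
      rw [hcomp γ', hWW]
    · rw [hD.deriv]
      exact div_ne_zero hw0 (mul_ne_zero hw'0 (pow_ne_zero 2 hd))
    · rw [hD.deriv, F0_eq hW z hz, F0_eq hW (ac γ z) hin', hWW', him, norm_div, norm_mul, norm_pow]
      have e1 : 0 < ‖W z‖ := norm_pos_iff.mpr hw0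
      have e2 : 0 < ‖mob γ (W z)‖ := norm_pos_iff.mpr hw'0
      have e3 : 0 < ‖(m21 γ : ℂ) * W z + m22 γ‖ := norm_pos_iff.mpr hd
      rw [Complex.normSq_eq_norm_sq, Real.log_div hwim.ne' (by positivity),
        Real.log_div e1.ne' (by positivity), Real.log_mul e2.ne' (by positivity), Real.log_pow]
      ring
  · unfold ac
    rw [hM.2.1, (h3 z hz).2]

theorem freeT : StMob → StW → StAc → StFree := by
  intro hM hW hA γ z hz hfix w hw
  obtain ⟨-, -, h3, -⟩ := hW
  obtain ⟨hwim, -⟩ := h3 z hz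
  have h1 : mob γ (W z) = W z := by
    rw [← (hA.1 γ z hz).2.1, hfix]
  have hd := den_ne γ (W z) hwim
  have h2 : (m11 γ : ℂ) * W z + m12 γ = W z * ((m21 γ : ℂ) * W z + m22 γ) := by
    have h4 : mob γ (W z) = ((m11 γ : ℂ) * W z + m12 γ) / ((m21 γ : ℂ) * W z + m22 γ) := rfl
    rw [h4, div_eq_iff hd] at h1
    exact h1
  have him := congrArg Complex.im h2
  have hre := congrArg Complex.re h2
  simp only [Complex.add_im, Complex.mul_im, Complex.ofReal_re, Complex.ofReal_im, zero_mul,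
    add_zero, Complex.add_re, Complex.mul_re, sub_zero] at him hre
  set x := (W z).re with hx
  set y := (W z).im with hy
  have hdet := det1 γ
  have ha : (1 : ℝ) ≤ (γ.a : ℝ) ^ 2 := by
    have h5 : γ.a ≠ 0 := by
      intro h0
      have h6 := γ.nrm
      rw [h0] at h6
      have h7 : (0 : ℤ) ^ 2 = 0 := by norm_num
      rw [h7] at h6
      omega
    have h6 : 1 ≤ γ.a ^ 2 := by
      have := sq_pos_of_ne_zero h5
      omega
    exact_mod_cast h6
  have htr : m11 γ + m22 γ = 2 * γ.a := by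
    unfold m11 m22
    ring
  have him2 : m11 γ - m22 γ = 2 * m21 γ * x := by
    have h5 : y * (m11 γ - m22 γ - 2 * m21 γ * x) = 0 := by linear_combination him
    rcases mul_eq_zero.mp h5 with h6 | h6
    · exact absurd h6 hwim.ne'
    · linarith
  have h21 : m21 γ = 0 := by
    by_contra hne
    have h5 : (m21 γ) ^ 2 * y ^ 2 = 1 - (γ.a : ℝ) ^ 2 := by
      have h6 : (γ.a : ℝ) = (m11 γ + m22 γ) / 2 := by linarith
      have h7 : m21 γ * x = (m11 γ - m22 γ) / 2 := by linarith
      rw [h6]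
      have h8 : m21 γ * (m11 γ * x + m12 γ) = m21 γ * (x * (m21 γ * x + m22 γ) - y * (m21 γ * y)) := by
        rw [hre]
      have h9 : m21 γ * (m11 γ * x + m12 γ) = m11 γ * (m21 γ * x) + m12 γ * m21 γ := by ring
      have h10 : m21 γ * (x * (m21 γ * x + m22 γ) - y * (m21 γ * y)) =
        (m21 γ * x) * (m21 γ * x + m22 γ) - (m21 γ) ^ 2 * y ^ 2 := by ring
      rw [h9, h10, h7] at h8
      linear_combination h8 + hdet
    have h6 : 0 < (m21 γ) ^ 2 * y ^ 2 := by positivity
    linarith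
  rw [h21] at him2 hre hdet
  have h1122 : m11 γ = m22 γ := by linarith
  have h12 : m12 γ = 0 := by
    rw [h1122] at hre
    linarith
  have hmm : (m22 γ : ℂ) ≠ 0 := by
    intro h0
    have h5 : m22 γ = 0 := by exact_mod_cast h0
    rw [h5] at hdet
    norm_num at hdet
  have hid : mob γ (W w) = W w := by
    unfold mob
    rw [h21, h12, h1122]
    simp only [Complex.ofReal_zero, zero_mul, zero_add, add_zero]
    rw [mul_comm, mul_div_cancel_right₀ _ hmm]
  unfold ac
  rw [hid, (h3 w hw).2]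

theorem conjT : StMob → StW → StAc → StConj := by
  intro hM hW hA
  obtain ⟨-, -, h3, h4, h5, -, hOm, -⟩ := hW
  have hc : ∀ z ∈ Om, conj z ∈ Om := by
    intro z hz
    unfold Om at hz ⊢
    simpa using hz
  refine ⟨hc, fun γ => ⟨⟨γ.a, -γ.b, -γ.c, γ.d, by have := γ.nrm; linear_combination this⟩,
    fun z hz => ?_⟩⟩
  set γ' : Gq := ⟨γ.a, -γ.b, -γ.c, γ.d, by have := γ.nrm; linear_combination this⟩ with hγ'
  have e11 : m11 γ' = m22 γ := by
    unfold m11 m22
    rw [hγ']
    push_cast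
    ring
  have e12 : m12 γ' = m21 γ := by
    unfold m12 m21
    rw [hγ']
    push_cast
    ring
  have e21 : m21 γ' = m12 γ := by
    unfold m12 m21
    rw [hγ']
    push_cast
    ring
  have e22 : m22 γ' = m11 γ := by
    unfold m11 m22
    rw [hγ']
    push_cast
    ring
  have hwim := (h3 z hz).1
  have hpos := (hM.1 γ (W z) hwim).2.2.1
  have hin := (hA.1 γ z hz).1
  have hWz := (hA.1 γ z hz).2.1
  have hw0 : conj (W z) ≠ 0 := by
    intro h0
    have h6 : W z = 0 := by
      have := congrArg conj h0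
      simpa using this
    rw [h6] at hwim
    simp at hwim
  have hkey : mob γ' (W (conj z)) = W (conj (ac γ z)) := by
    rw [(h5 z).2.2.2.1, (h5 (ac γ z)).2.2.2.1, hWz]
    unfold mob
    rw [e11, e12, e21, e22, map_div₀, inv_div]
    simp only [map_add, map_mul, Complex.conj_ofReal]
    have h6 : (m22 γ : ℂ) * (conj (W z))⁻¹ + m21 γ =
        ((m21 γ : ℂ) * conj (W z) + m22 γ) * (conj (W z))⁻¹ := by
      field_simp
      ring
    have h7 : (m12 γ : ℂ) * (conj (W z))⁻¹ + m11 γ =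
        ((m11 γ : ℂ) * conj (W z) + m12 γ) * (conj (W z))⁻¹ := by
      field_simp
      ring
    rw [h6, h7, mul_div_mul_right _ _ (inv_ne_zero hw0)]
  have h8 : ac γ' (conj z) = Wi (W (conj (ac γ z))) := by
    unfold ac at hkey ⊢
    rw [hkey]
  rw [h8, (h3 _ (hc _ hin)).2]

end Pool.Agent.Y117.EX
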